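import Pool.Agent.helper33.AG.Spec

/-!
# MP_5a4a8e_nt, row eav:CV: a deviation of `θ` in a short interval gives a deviation of a tent sum
-/

set_option autoImplicit false

namespace Pool.Agent.AG

open N1f72dd46 Filter MeasureTheory Set Pool.Agent.QZ

theorem CV_mt (d s : ℝ) : mt d s = (Real.exp d - 1) * (Real.exp s - Real.exp (s - d)) := by
  have h1 : Real.exp (s - d) = Real.exp s * Real.exp (-d) := by rw [← Real.exp_add]; ring_nf
  have h2 : Real.exp d * Real.exp (-d) = 1 := by rw [← Real.exp_add, add_neg_cancel, Real.exp_zero]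
  rw [mt, h1, Real.cosh_eq]
  linear_combination (Real.exp s) * h2

theorem CV_sum (d t : ℝ) (K : ℕ) : ∑ k ∈ Finset.range (K + 1), mt d (t + k * d) =
    (Real.exp d - 1) * (Real.exp (t + K * d) - Real.exp (t - d)) := by
  induction K with
  | zero => simp [CV_mt]
  | succ K ih =>
    rw [Finset.sum_range_succ, ih, CV_mt]
    have h : t + ((K + 1 : ℕ) : ℝ) * d - d = t + K * d := by push_cast; ring
    rw [h]
    ring

theorem CV_mt_pos {d s : ℝ} (hd : 0 < d) : 0 < mt d s := by
  rw [CV_mt]
  have h1 : 1 < Real.exp d := Real.one_lt_exp_iff.2 hd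
  have h2 : Real.exp (s - d) < Real.exp s := Real.exp_lt_exp.2 (by linarith)
  exact mul_pos (by linarith) (by linarith)

theorem CV (hZC : ZC_stmt) : CV_stmt := by
  obtain ⟨hmono, -, -, -, -, hup, hlow⟩ := hZC
  intro x h η d hx hh hhx hη hη1 hd h80 hdev
  by_contra hcon
  push Not at hcon
  have hx0 : 0 < x := by linarith
  have hxh : 0 < x + h := by linarith
  set t0 : ℝ := Real.log x with ht0
  set L : ℝ := Real.log (x + h) - Real.log x with hL
  have ht1 : t0 + L = Real.log (x + h) := by rw [ht0, hL]; ring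
  have hLdef : L = Real.log (1 + h / x) := by
    rw [hL, ← Real.log_div hxh.ne' hx0.ne']
    congr 1
    field_simp
  have hu0 : 0 < h / x := div_pos hh hx0
  have hu1 : h / x ≤ 1 := (div_le_one hx0).2 hhx
  have hLle : L ≤ h / x := by
    rw [hLdef]
    have := Real.log_le_sub_one_of_pos (x := 1 + h / x) (by linarith)
    linarith
  have hL2 : L ≤ Real.log 2 := by
    rw [hLdef]
    exact Real.log_le_log (by linarith) (by linarith)
  have hlog2 : Real.log 2 < 0.6931471808 := Real.log_two_lt_d9
  have hLge : h / x / 2 ≤ L := by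
    rw [hLdef]
    have h1 : 1 - (1 + h / x)⁻¹ ≤ Real.log (1 + h / x) := Real.one_sub_inv_le_log_of_pos (by linarith)
    have h2 : h / x / 2 ≤ 1 - (1 + h / x)⁻¹ := by
      have h3 : 1 - (1 + h / x)⁻¹ = (h / x) / (1 + h / x) := by
        have : (1 + h / x) ≠ 0 := by linarith
        field_simp
        ring
      rw [h3]
      apply div_le_div_of_nonneg_left hu0.le (by linarith) (by linarith)
    linarith
  have hL0 : 0 < L := by linarith
  have hxL : x * L ≤ h := by
    have := mul_le_mul_of_nonneg_left hLle hx0.le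
    rwa [mul_div_cancel₀ _ hx0.ne'] at this
  have hxd : x * d ≤ η * h / 80 := by linarith
  have hηh : η * h ≤ h := by nlinarith
  have hd80 : d ≤ η / 80 := by
    have h1 : x * d ≤ x * (η / 80) := by nlinarith
    exact le_of_mul_le_mul_left h1 hx0
  have hd1 : d ≤ 1 / 80 := by linarith
  -- exponentials
  have e1 : Real.exp d - 1 ≤ d * (1 + d) := by
    have h1 := Real.abs_exp_sub_one_sub_id_le (x := d) (by rw [abs_of_pos hd]; linarith)
    have h2 := (abs_le.1 h1).2
    nlinarith
  have e1' : d ≤ Real.exp d - 1 := by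
    have := Real.add_one_le_exp d
    linarith
  have e2 : 1 - d ≤ Real.exp (-d) := by
    have := Real.add_one_le_exp (-d)
    linarith
  have e3 : 1 - 2 * d ≤ Real.exp (-(2 * d)) := by
    have := Real.add_one_le_exp (-(2 * d))
    linarith
  have hV0 : V t0 = Chebyshev.theta x := by rw [V, ht0, Real.exp_log hx0]
  have hV1 : V (t0 + L) = Chebyshev.theta (x + h) := by rw [V, ht1, Real.exp_log hxh]
  rcases lt_abs.1 hdev with hdv | hdv
  · -- upper deviation
    set K : ℕ := ⌈L / d⌉₊ with hK
    have hK1 : L ≤ K * d := by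
      have := Nat.le_ceil (L / d)
      rwa [div_le_iff₀ hd] at this
    have hK2 : (K : ℝ) * d ≤ L + d := by
      have h1 : (K : ℝ) < L / d + 1 := Nat.ceil_lt_add_one (by positivity)
      have h2 : (K : ℝ) * d ≤ (L / d + 1) * d := by nlinarith
      rwa [add_mul, div_mul_cancel₀ _ hd.ne', one_mul] at h2
    have hZ : d * (V (t0 + K * d) - V t0) ≤ ∑ k ∈ Finset.range (K + 1), Z d (t0 + k * d) := hlow d t0 K hd.le
    have hVm : V (t0 + L) ≤ V (t0 + K * d) := hmono (by linarith)
    have hM : ∑ k ∈ Finset.range (K + 1), mt d (t0 + k * d) ≤ d * (1 + η / 2) * h := by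
      rw [CV_sum]
      have h1 : Real.exp (t0 + K * d) ≤ (x + h) * (1 + d * (1 + d)) := by
        calc Real.exp (t0 + K * d) ≤ Real.exp (Real.log (x + h) + d) := Real.exp_le_exp.2 (by linarith)
          _ = (x + h) * Real.exp d := by rw [Real.exp_add, Real.exp_log hxh]
          _ ≤ (x + h) * (1 + d * (1 + d)) := by
            apply mul_le_mul_of_nonneg_left _ hxh.le
            linarith
      have h2 : x * (1 - d) ≤ Real.exp (t0 - d) := by
        rw [sub_eq_add_neg t0 d, Real.exp_add, ht0, Real.exp_log hx0]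
        exact mul_le_mul_of_nonneg_left e2 hx0.le
      have h3 : Real.exp (t0 + K * d) - Real.exp (t0 - d) ≤ h * (1 + η / 16) := by
        have h4 : (x + h) * (1 + d * (1 + d)) - x * (1 - d) ≤ h + 4 * (x * d) := by
          have h5 : (x + h) * (d * (1 + d)) ≤ 2 * x * (d * (1 + d)) := by
            apply mul_le_mul_of_nonneg_right (by linarith) (by positivity)
          nlinarith [mul_pos hx0 hd]
        nlinarith
      have h6 : 0 ≤ h * (1 + η / 16) := by positivity
      calc (Real.exp d - 1) * (Real.exp (t0 + K * d) - Real.exp (t0 - d))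
          ≤ (Real.exp d - 1) * (h * (1 + η / 16)) := mul_le_mul_of_nonneg_left h3 (by linarith)
        _ ≤ (d * (1 + d)) * (h * (1 + η / 16)) := mul_le_mul_of_nonneg_right e1 h6
        _ = (d * h) * ((1 + d) * (1 + η / 16)) := by ring
        _ ≤ (d * h) * (1 + η / 2) := by
          apply mul_le_mul_of_nonneg_left _ (by positivity)
          nlinarith
        _ = d * (1 + η / 2) * h := by ring
    have hlt : ∑ k ∈ Finset.range (K + 1), Z d (t0 + k * d) <
        ∑ k ∈ Finset.range (K + 1), (1 + η / 4) * mt d (t0 + k * d) := by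
      apply Finset.sum_lt_sum_of_nonempty (by simp)
      intro k hk
      have hk1 : (k : ℝ) ≤ K := by
        have := Finset.mem_range_succ_iff.1 hk
        exact_mod_cast this
      have hk2 : (k : ℝ) * d ≤ L + d := (mul_le_mul_of_nonneg_right hk1 hd.le).trans hK2
      have h1 := hcon k (by linarith) (by nlinarith)
      have h2 := (abs_lt.1 h1).2
      linarith
    rw [← Finset.mul_sum] at hlt
    have h7 : (1 + η / 4) * ∑ k ∈ Finset.range (K + 1), mt d (t0 + k * d) ≤ (1 + η / 4) * (d * (1 + η / 2) * h) :=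
      mul_le_mul_of_nonneg_left hM (by linarith)
    have h8 : d * ((1 + η) * h) ≤ d * (V (t0 + K * d) - V t0) := by
      apply mul_le_mul_of_nonneg_left _ hd.le
      rw [hV0]
      rw [hV1] at hVm
      linarith
    have h9 : d * ((1 + η) * h) < (1 + η / 4) * (d * (1 + η / 2) * h) := by linarith
    have h10 : (d * h) * (1 + η) < (d * h) * ((1 + η / 4) * (1 + η / 2)) := by
      calc (d * h) * (1 + η) = d * ((1 + η) * h) := by ring
        _ < _ := h9
        _ = _ := by ring
    have h11 := lt_of_mul_lt_mul_left h10 (by positivity)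
    nlinarith
  · -- lower deviation
    have hLd : 40 ≤ L / d := by
      rw [le_div_iff₀ hd]
      have h1 : 40 * d * x ≤ (h / x / 2) * x := by
        have : h / x / 2 * x = h / 2 := by field_simp
        rw [this]
        nlinarith
      have h2 := le_of_mul_le_mul_right h1 hx0
      linarith
    set m : ℕ := ⌊L / d⌋₊ with hm
    have hm1 : (m : ℝ) * d ≤ L := by
      have := Nat.floor_le (a := L / d) (by positivity)
      rwa [le_div_iff₀ hd] at this
    have hm2 : L < ((m : ℝ) + 1) * d := by
      have := Nat.lt_floor_add_one (L / d)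
      rwa [div_lt_iff₀ hd] at this
    have hm40 : 40 ≤ m := Nat.le_floor (by exact_mod_cast hLd)
    obtain ⟨K, hK⟩ : ∃ K : ℕ, m = K + 2 := ⟨m - 2, by omega⟩
    have hKm : (m : ℝ) = K + 2 := by rw [hK]; push_cast; ring
    have hZ : ∑ k ∈ Finset.range (K + 1), Z d (t0 + d + k * d) ≤ d * (V (t0 + d + (K + 1) * d) - V (t0 + d - d)) :=
      hup d (t0 + d) K hd.le
    have hVm : V (t0 + d + (K + 1) * d) ≤ V (t0 + L) := hmono (by rw [hKm] at hm1; linarith)
    have hM : d * ((1 - η / 4) * h) ≤ ∑ k ∈ Finset.range (K + 1), mt d (t0 + d + k * d) := by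
      rw [CV_sum]
      have h1 : (x + h) * (1 - 2 * d) ≤ Real.exp (t0 + d + K * d) := by
        calc (x + h) * (1 - 2 * d) ≤ (x + h) * Real.exp (-(2 * d)) := mul_le_mul_of_nonneg_left e3 hxh.le
          _ = Real.exp (Real.log (x + h) + -(2 * d)) := by rw [Real.exp_add, Real.exp_log hxh]
          _ ≤ Real.exp (t0 + d + K * d) := Real.exp_le_exp.2 (by rw [hKm] at hm2; linarith)
      have h2 : Real.exp (t0 + d - d) = x := by rw [add_sub_cancel_right, ht0, Real.exp_log hx0]
      rw [h2]
      have h3 : (1 - η / 4) * h ≤ Real.exp (t0 + d + K * d) - x := by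
        have h4 : (x + h) * d ≤ 2 * (x * d) := by nlinarith
        nlinarith
      have h5 : 0 ≤ (1 - η / 4) * h := mul_nonneg (by linarith) hh.le
      calc d * ((1 - η / 4) * h) ≤ (Real.exp d - 1) * ((1 - η / 4) * h) := mul_le_mul_of_nonneg_right e1' h5
        _ ≤ (Real.exp d - 1) * (Real.exp (t0 + d + K * d) - x) := mul_le_mul_of_nonneg_left h3 (by linarith)
    have hlt : ∑ k ∈ Finset.range (K + 1), (1 - η / 4) * mt d (t0 + d + k * d) <
        ∑ k ∈ Finset.range (K + 1), Z d (t0 + d + k * d) := by
      apply Finset.sum_lt_sum_of_nonempty (by simp)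
      intro k hk
      have hk1 : (k : ℝ) ≤ K := by
        have := Finset.mem_range_succ_iff.1 hk
        exact_mod_cast this
      have hk2 : ((k : ℝ) + 1) * d ≤ L := by
        have h1 : ((k : ℝ) + 1) * d ≤ (m : ℝ) * d := mul_le_mul_of_nonneg_right (by rw [hKm]; linarith) hd.le
        linarith
      have hk3 : t0 + ((k + 1 : ℕ) : ℝ) * d = t0 + d + k * d := by push_cast; ring
      have h1 := hcon (k + 1) (by push_cast; linarith) (by push_cast; nlinarith)
      rw [hk3] at h1
      have h2 := (abs_lt.1 h1).1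
      linarith
    rw [← Finset.mul_sum] at hlt
    have h7 : (1 - η / 4) * (d * ((1 - η / 4) * h)) ≤
        (1 - η / 4) * ∑ k ∈ Finset.range (K + 1), mt d (t0 + d + k * d) :=
      mul_le_mul_of_nonneg_left hM (by linarith)
    have h8 : d * (V (t0 + d + (K + 1) * d) - V (t0 + d - d)) ≤ d * ((1 - η) * h) := by
      apply mul_le_mul_of_nonneg_left _ hd.le
      rw [add_sub_cancel_right, hV0]
      rw [hV1] at hVm
      linarith
    have h9 : (d * h) * ((1 - η / 4) * (1 - η / 4)) < (d * h) * (1 - η) := by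
      calc (d * h) * ((1 - η / 4) * (1 - η / 4)) = (1 - η / 4) * (d * ((1 - η / 4) * h)) := by ring
        _ < d * ((1 - η) * h) := by linarith
        _ = _ := by ring
    have h11 := lt_of_mul_lt_mul_left h9 (by positivity)
    nlinarith

end Pool.Agent.AG
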